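import Pool.Agent.Helper65.CG.Upper
import Pool.Agent.Helper75.CG.Lower

/-!
# The `(m : m)` clique game: `q_m(n) = (C_m + o(1)) log₂ n` for every fixed `m`

`MakerWins`, `qm` and the notions they use are defined in `Pool/Agent/Helper65/Clique/Defs.lean`.
-/

set_option autoImplicit false

namespace Pool.Agent.Results.MP_246ef5_co.ExactConstant

open Pool.Agent.Helper65.CliqueGame
open Pool.Agent.Helper65.CG
open Filter Topology

theorem upper_qm (m : ℕ) (hm : 1 ≤ m) (ε : ℝ) (hε : 0 < ε) :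
    ∃ n₀ : ℕ, ∀ n ≥ n₀, (qm m n : ℝ) ≤ (Cst m + ε) * Lg n := by
  obtain ⟨n₀, hn₀⟩ := upper_wins hm hε
  refine ⟨n₀, fun n hn => ?_⟩
  by_contra h
  exact hn₀ n hn (qm m n) (not_le.1 h).le (Pool.Agent.Helper75.CG.LowerAux.qm_wins hm n)

theorem tendsto_qm (m : ℕ) (hm : 1 ≤ m) :
    Tendsto (fun n : ℕ => (qm m n : ℝ) / Real.logb 2 n) atTop (𝓝 (Cst m)) := by
  rw [Metric.tendsto_atTop]
  intro ε hε
  obtain ⟨n₁, h1⟩ := upper_qm m hm (ε / 2) (by positivity)
  obtain ⟨n₂, h2⟩ := Pool.Agent.Helper75.CG.lower_qm m hm (ε / 2) (by positivity)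
  refine ⟨max 2 (max n₁ n₂), fun n hn => ?_⟩
  have hn2 : 2 ≤ n := (le_max_left _ _).trans hn
  have h3 := h1 n (((le_max_left _ _).trans (le_max_right _ _)).trans hn)
  have h4 := h2 n (((le_max_right _ _).trans (le_max_right _ _)).trans hn)
  have hL : 0 < Real.logb 2 (n : ℝ) :=
    Real.logb_pos (by norm_num) (by exact_mod_cast (by omega : 1 < n))
  have hLg : Lg n = Real.logb 2 (n : ℝ) := rfl
  rw [hLg] at h3 h4
  rw [Real.dist_eq, abs_lt]
  constructor
  · have h5 : Cst m - ε / 2 ≤ (qm m n : ℝ) / Real.logb 2 n := by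
      rw [le_div_iff₀ hL]; exact h4
    linarith
  · have h5 : (qm m n : ℝ) / Real.logb 2 n ≤ Cst m + ε / 2 := by
      rw [div_le_iff₀ hL]; exact h3
    linarith

/-- **The exact constant in `q_m(n)` for every fixed `m`.** -/
theorem result :
    (∀ m : ℕ, 1 ≤ m → ∀ n : ℕ, MakerWins n m (qm m n) true ∅ ∅ ∧
      ∀ q, MakerWins n m q true ∅ ∅ → q ≤ qm m n) ∧
    (∀ m : ℕ, 1 ≤ m → m ≤ 3 →
      Tendsto (fun n : ℕ => (qm m n : ℝ) / Real.logb 2 n) atTop (𝓝 2)) ∧
    (∀ m : ℕ, m = 4 ∨ m = 5 → Tendsto (fun n : ℕ => (qm m n : ℝ) / Real.logb 2 n) atTop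
      (𝓝 ((1 + √(m * (m * Real.logb 2 (m + 1) - 2 * Real.logb 2 (m + 1) + 1) /
        (m - Real.logb 2 (m + 1)))) / Real.logb 2 (m + 1)))) ∧
    (∀ m : ℕ, 6 ≤ m → Tendsto (fun n : ℕ => (qm m n : ℝ) / Real.logb 2 n) atTop
      (𝓝 (m / Real.logb 2 (m + 1)))) := by
  refine ⟨fun m hm n => ⟨Pool.Agent.Helper75.CG.LowerAux.qm_wins hm n,
    fun q hq => Pool.Agent.Helper75.CG.LowerAux.le_qm hq⟩, ?_, ?_, ?_⟩
  · intro m hm hm3
    have := tendsto_qm m hm
    unfold Cst at this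
    rwa [if_pos hm3] at this
  · intro m hm
    have := tendsto_qm m (by omega)
    unfold Cst at this
    rwa [if_neg (by omega), if_pos (by omega)] at this
  · intro m hm
    have := tendsto_qm m (by omega)
    unfold Cst at this
    rwa [if_neg (by omega), if_neg (by omega)] at this

end Pool.Agent.Results.MP_246ef5_co.ExactConstant
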